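import Pool.Agent.H74.TSD.Targets

/-!
Board `tsd_modules`, letter CT: counting in boxes.
-/

set_option autoImplicit false

open MeasureTheory Set Metric Filter
open scoped ENNReal Pointwise Topology

namespace Pool.Agent.H65.TSD

open Pool.Agent.H74.TSD Pool.Agent.H73.TS

theorem prod_upd {d : ℕ} (b : Fin d → ℝ) (i : Fin d) (v : ℝ) :
    ∏ j, (1 + Function.update b i v j) = (1 + v) * ∏ j ∈ Finset.univ.erase i, (1 + b j) := by
  rw [← Finset.mul_prod_erase Finset.univ (fun j => 1 + Function.update b i v j)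
    (Finset.mem_univ i)]
  congr 1
  · simp
  · apply Finset.prod_congr rfl
    intro j hj
    rw [Function.update_of_ne (Finset.ne_of_mem_erase hj)]

theorem prod_one_add_ge {d : ℕ} (b : Fin d → ℝ) (hb : ∀ i, 0 ≤ b i) : 1 ≤ ∏ i, (1 + b i) := by
  have h : ∏ _i : Fin d, (1 : ℝ) ≤ ∏ i, (1 + b i) :=
    Finset.prod_le_prod (fun i _ => zero_le_one) (fun i _ => by linarith [hb i])
  rwa [Finset.prod_const_one] at h

theorem sepMix_mono {d : ℕ} {γ : Fin d → ℝ × ℝ} {U : Set (ℝ × ℝ)} {S T : Finset (Fin d → ℝ)}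
    (hT : T ⊆ S) (h : SepMix γ U S) : SepMix γ U T := by
  intro x hx y hy hxy
  rcases h x (hT hx) y (hT hy) hxy with ⟨i, t, h1, h2⟩ | ⟨p, hp, t, h1, h2⟩
  · exact Or.inl ⟨i, t, h1, fun z hz => h2 z (hT hz)⟩
  · exact Or.inr ⟨p, hp, t, h1, fun z hz => h2 z (hT hz)⟩

theorem pr_add {d : ℕ} (γ : Fin d → ℝ × ℝ) (x y : Fin d → ℝ) :
    pr γ (x + y) = pr γ x + pr γ y := by
  simp only [pr, Pi.add_apply, add_smul, Finset.sum_add_distrib]

theorem pr_smul {d : ℕ} (γ : Fin d → ℝ × ℝ) (r : ℝ) (x : Fin d → ℝ) :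
    pr γ (r • x) = r • pr γ x := by
  simp only [pr, Pi.smul_apply, smul_eq_mul, mul_smul, Finset.smul_sum]

theorem pr_cont {d : ℕ} (γ : Fin d → ℝ × ℝ) : Continuous (pr γ) := by
  unfold pr
  fun_prop

theorem zon_eq {d : ℕ} (γ : Fin d → ℝ × ℝ) (b : Fin d → ℝ) :
    {x | ∃ a' : Fin d → ℝ, (∀ i, 0 ≤ a' i ∧ a' i ≤ b i) ∧ x = pr γ a'} =
      pr γ '' Set.Icc 0 b := by
  ext x
  constructor
  · rintro ⟨a', h, rfl⟩
    exact ⟨a', ⟨fun i => (h i).1, fun i => (h i).2⟩, rfl⟩
  · rintro ⟨a', h, rfl⟩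
    exact ⟨a', fun i => ⟨h.1 i, h.2 i⟩, rfl⟩

theorem ct (hp : T_PT) (hl : T_LF) (hg : T_GC) : T_CT := by
  intro d γ U M c hM hc hU hγ hγγ hne
  obtain ⟨C, hC, hCn, hCw⟩ := hg d γ U M c hM (by linarith) hU hγ hne
  suffices H : ∀ (n : ℕ) (a b : Fin d → ℝ) (S : Finset (Fin d → ℝ)), S.card = n →
      (∀ i, 0 ≤ b i) → (∀ x ∈ S, ∀ i, a i ≤ x i ∧ x i ≤ a i + b i) → SepMix γ U S →
      (S.card : ℝ) ≤ 1 + c * (∏ i, (1 + b i) - 1) from
    fun a b S hb hS hsep => H S.card a b S rfl hb hS hsep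
  intro n
  induction n using Nat.strong_induction_on with
  | _ n ih =>
  intro a b S hSn hb hbox hsep
  have hc0 : 0 ≤ c := by linarith
  by_cases hA : ∃ x ∈ S, ∃ y ∈ S, ∃ (i : Fin d) (t : ℝ), x i ≤ t ∧ t + 1 ≤ y i ∧
      ∀ z ∈ S, z i ≤ t ∨ t + 1 ≤ z i
  · obtain ⟨x, hx, y, hy, i, t, hxt, hyt, hz⟩ := hA
    classical
    set S1 := S.filter (fun z => z i ≤ t) with hS1
    set S2 := S.filter (fun z => ¬ z i ≤ t) with hS2
    have hcard : S1.card + S2.card = S.card := Finset.card_filter_add_card_filter_not _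
    have hx1 : x ∈ S1 := Finset.mem_filter.mpr ⟨hx, hxt⟩
    have hy2 : y ∈ S2 := Finset.mem_filter.mpr ⟨hy, by linarith⟩
    have hc1 : 0 < S1.card := Finset.card_pos.mpr ⟨x, hx1⟩
    have hc2 : 0 < S2.card := Finset.card_pos.mpr ⟨y, hy2⟩
    have hat : a i ≤ t := (hbox x hx i).1.trans hxt
    have hbt : t + 1 ≤ a i + b i := hyt.trans (hbox y hy i).2
    have hR : 0 ≤ ∏ j ∈ Finset.univ.erase i, (1 + b j) :=
      Finset.prod_nonneg (fun j _ => by linarith [hb j])
    have hprod : ∏ j, (1 + b j) = (1 + b i) * ∏ j ∈ Finset.univ.erase i, (1 + b j) :=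
      (Finset.mul_prod_erase Finset.univ (fun j => 1 + b j) (Finset.mem_univ i)).symm
    have h1 := ih S1.card (by omega) a (Function.update b i (t - a i)) S1 rfl (by
      intro j
      by_cases hj : j = i
      · subst hj
        rw [Function.update_self]
        linarith
      · rw [Function.update_of_ne hj]
        exact hb j) (by
      intro z hzS' j
      obtain ⟨hzS, hzt⟩ := Finset.mem_filter.mp hzS'
      by_cases hj : j = i
      · subst hj
        rw [Function.update_self]
        exact ⟨(hbox z hzS j).1, by linarith⟩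
      · rw [Function.update_of_ne hj]
        exact hbox z hzS j) (sepMix_mono (Finset.filter_subset _ _) hsep)
    have h2 := ih S2.card (by omega) (Function.update a i (t + 1))
      (Function.update b i (a i + b i - t - 1)) S2 rfl (by
      intro j
      by_cases hj : j = i
      · subst hj
        rw [Function.update_self]
        linarith
      · rw [Function.update_of_ne hj]
        exact hb j) (by
      intro z hzS' j
      obtain ⟨hzS, hzt⟩ := Finset.mem_filter.mp hzS'
      by_cases hj : j = i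
      · subst hj
        rw [Function.update_self, Function.update_self]
        have h3 := (hz z hzS).resolve_left hzt
        have h4 := (hbox z hzS j).2
        exact ⟨h3, by linarith⟩
      · rw [Function.update_of_ne hj, Function.update_of_ne hj]
        exact hbox z hzS j) (sepMix_mono (Finset.filter_subset _ _) hsep)
    rw [prod_upd] at h1 h2
    rw [hprod, ← hcard, Nat.cast_add]
    set R := ∏ j ∈ Finset.univ.erase i, (1 + b j)
    nlinarith
  · by_cases hSe : S.Nonempty
    · have hB : ∀ x ∈ S, ∀ y ∈ S, x ≠ y → (∃ p ∈ U, ∃ t : ℝ,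
          ((ev p (pr γ x) ≤ t ∧ t + 1 ≤ ev p (pr γ y)) ∨
            (ev p (pr γ y) ≤ t ∧ t + 1 ≤ ev p (pr γ x))) ∧
          ∀ z ∈ S, ev p (pr γ z) ≤ t ∨ t + 1 ≤ ev p (pr γ z)) := by
        intro x hx y hy hxy
        rcases hsep x hx y hy hxy with ⟨i, t, h1, h2⟩ | h
        · exfalso
          apply hA
          rcases h1 with h1 | h1
          · exact ⟨x, hx, y, hy, i, t, h1.1, h1.2, h2⟩
          · exact ⟨y, hy, x, hx, i, t, h1.1, h1.2, h2⟩
        · exact h
      have hinj : Set.InjOn (pr γ) (S : Set (Fin d → ℝ)) := by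
        intro x hx y hy hxy
        by_contra hne'
        obtain ⟨p, -, t, h1, -⟩ := hB x hx y hy hne'
        rw [hxy] at h1
        rcases h1 with h1 | h1 <;> linarith [h1.1, h1.2]
      classical
      set S' := S.image (pr γ) with hS'
      have hcard : S'.card = S.card := Finset.card_image_of_injOn hinj
      have hsep' : SepBy U S' := by
        intro x' hx' y' hy' hxy'
        obtain ⟨x, hx, rfl⟩ := Finset.mem_image.mp hx'
        obtain ⟨y, hy, rfl⟩ := Finset.mem_image.mp hy'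
        obtain ⟨p, hpU, t, h1, h2⟩ := hB x hx y hy (fun h => hxy' (by rw [h]))
        refine ⟨p, hpU, t, h1, ?_⟩
        intro z' hz'
        obtain ⟨z, hz, rfl⟩ := Finset.mem_image.mp hz'
        exact h2 z hz
      set Z0 : Set (ℝ × ℝ) := {x | ∃ a' : Fin d → ℝ, (∀ i, 0 ≤ a' i ∧ a' i ≤ b i) ∧
        x = pr γ a'} with hZ0
      have hZ0' : Z0 = pr γ '' Set.Icc 0 b := zon_eq γ b
      have hZ0c : IsCompact Z0 := by
        rw [hZ0']
        exact isCompact_Icc.image (pr_cont γ)
      have hZ0v : Convex ℝ Z0 := by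
        rw [hZ0']
        exact (convex_Icc (0 : Fin d → ℝ) b).is_linear_image ⟨pr_add γ, pr_smul γ⟩
      set Z : Set (ℝ × ℝ) := (fun x => pr γ a + x) '' Z0 with hZ
      have hZc : IsCompact Z := hZ0c.image (by fun_prop)
      have hZv : Convex ℝ Z := hZ0v.translate (pr γ a)
      have hsub : (S' : Set (ℝ × ℝ)) ⊆ Z := by
        intro x' hx'
        obtain ⟨x, hx, rfl⟩ := Finset.mem_image.mp (Finset.mem_coe.mp hx')
        refine ⟨pr γ (x - a), ⟨x - a, fun i => ?_, rfl⟩, ?_⟩
        · have := hbox x hx i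
          simp only [Pi.sub_apply]
          constructor <;> linarith [this.1, this.2]
        · simp only
          rw [← pr_add, add_sub_cancel]
      have har : ar (Z + C) = ar (Z0 + C) := by
        have h1 : Z + C = (fun x => pr γ a + x) '' (Z0 + C) := by
          ext x
          constructor
          · rintro ⟨_, ⟨z, hz, rfl⟩, w, hw, rfl⟩
            exact ⟨z + w, ⟨z, hz, w, hw, rfl⟩, (add_assoc _ _ _).symm⟩
          · rintro ⟨_, ⟨z, hz, w, hw, rfl⟩, rfl⟩
            exact ⟨_, ⟨z, hz, rfl⟩, w, hw, add_assoc _ _ _⟩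
        rw [ar, ar, h1, Set.image_add_left, measure_preimage_add]
      have h1 := hp U M C Z S' hM hC hZc hZv hsub (hSe.image _) hsep'
      have h2 := hl d γ M c C b hM hc0 hC.cpt hC.cvx hCn hCw hγγ hb
      rw [har, hcard] at h1
      linarith
    · rw [Finset.not_nonempty_iff_eq_empty] at hSe
      rw [hSe]
      have := prod_one_add_ge b hb
      simp only [Finset.card_empty, Nat.cast_zero]
      nlinarith

end Pool.Agent.H65.TSD
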