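import Pool.Agent.H74.TSD.Targets

/-!
Board `tsd_modules`, letter PG: the parallelotope of `d` functionals of width one.
-/

set_option autoImplicit false

open MeasureTheory Set Metric Filter
open scoped ENNReal Pointwise Topology

namespace Pool.Agent.H65.TSD

open Pool.Agent.H74.TSD Pool.Agent.H73.TS

theorem pg (hw : T_W1) (hp : Pool.Agent.H73.TS.T_PAR) : T_PG := by
  intro d K g hK hn hg hdt
  classical
  set G : Matrix (Fin d) (Fin d) ℝ :=
    Matrix.of fun i j => g i (EuclideanSpace.single j (1 : ℝ)) with hG
  have hGdt : G.det = dt g := rfl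
  have hGu : IsUnit G.det := by
    rw [hGdt]
    exact isUnit_iff_ne_zero.mpr hdt
  set w : Fin d → E d := fun j => ∑ k, (G⁻¹ k j) • EuclideanSpace.single k (1 : ℝ) with hwdef
  have hgw : ∀ i j, g i (w j) = if i = j then 1 else 0 := by
    intro i j
    have h1 : g i (w j) = (G * G⁻¹) i j := by
      rw [hwdef, map_sum, Matrix.mul_apply]
      apply Finset.sum_congr rfl
      intro k _
      rw [map_smul, smul_eq_mul, mul_comm]
      rfl
    rw [h1, Matrix.mul_nonsing_inv G hGu, Matrix.one_apply]
  have hsum : ∀ (a : Fin d → ℝ) (j : Fin d), g j (∑ i, a i • w i) = a j := by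
    intro a j
    rw [map_sum]
    simp only [map_smul, hgw, smul_eq_mul, mul_ite, mul_one, mul_zero]
    simp
  have hli : LinearIndependent ℝ w := by
    rw [Fintype.linearIndependent_iff]
    intro a ha j
    have h1 := hsum a j
    rw [ha, map_zero] at h1
    exact h1.symm
  have hatt := (hw d K hK hn).1
  choose xm hxm ym hym hwd hbd using hatt
  set v : E d := ∑ i, (g i (ym (g i))) • w i with hv
  obtain ⟨L, hLw, hvol, -⟩ := hp d w v hli
  set bas : Module.Basis (Fin d) ℝ (E d) :=
    Module.Basis.mk hli (hli.span_eq_top_of_card_eq_finrank' (by simp)).ge with hbas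
  have hbas' : ∀ i, bas i = w i := by
    intro i
    rw [hbas, Module.Basis.mk_apply]
  have hrep : ∀ x : E d, x = ∑ i, g i x • w i := by
    intro x
    have h1 : x = ∑ i, bas.repr x i • w i := by
      conv_lhs => rw [← bas.sum_repr x]
      simp only [hbas']
    have h2 : ∀ j, g j x = bas.repr x j := by
      intro j
      conv_lhs => rw [h1]
      exact hsum _ j
    conv_lhs => rw [h1]
    simp only [h2]
  have hLx : ∀ (x : E d) (i : Fin d), (L x) i = g i x := by
    intro x i
    conv_lhs => rw [hrep x]
    rw [map_sum]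
    simp_rw [map_smul, hLw]
    simp [Pi.single_apply]
  refine ⟨w, v, hli, hgw, ?_, ?_⟩
  · intro x hx
    refine ⟨fun i => g i x - g i (ym (g i)), ?_, ?_⟩
    · intro i
      have h1 := hbd (g i) x hx
      have h2 := hwd (g i)
      rw [hg i] at h2
      constructor
      · linarith [h1.1]
      · linarith [h1.2]
    · conv_lhs => rw [hrep x]
      rw [hv, ← Finset.sum_add_distrib]
      apply Finset.sum_congr rfl
      intro i _
      rw [← add_smul]
      congr 1
      ring
  · have hdet : LinearMap.det (L : E d →ₗ[ℝ] E d) = dt g := by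
      rw [← LinearMap.det_toMatrix (EuclideanSpace.basisFun (Fin d) ℝ).toBasis, ← hGdt]
      congr 1
      ext i j
      rw [LinearMap.toMatrix_apply]
      simp only [OrthonormalBasis.coe_toBasis, EuclideanSpace.basisFun_apply,
        OrthonormalBasis.coe_toBasis_repr_apply, EuclideanSpace.basisFun_repr]
      exact hLx _ i
    rw [hdet] at hvol
    exact hvol

end Pool.Agent.H65.TSD
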