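import Pool.Agent.H74.TSD.Targets

/-!
Board `tsd_modules`, letter W1: basic properties of the width.
-/

set_option autoImplicit false

open MeasureTheory Set Metric Filter
open scoped ENNReal Pointwise Topology

namespace Pool.Agent.H65.TSD

open Pool.Agent.H74.TSD Pool.Agent.H73.TS

theorem wdt_att {d : ℕ} (K : Set (E d)) (hK : IsCompact K) (hn : K.Nonempty)
    (f : E d →L[ℝ] ℝ) :
    ∃ x ∈ K, ∃ y ∈ K, wdt K f = f x - f y ∧ ∀ z ∈ K, f y ≤ f z ∧ f z ≤ f x := by
  obtain ⟨x, hx, hmax⟩ := hK.exists_isMaxOn hn f.continuous.continuousOn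
  obtain ⟨y, hy, hmin⟩ := hK.exists_isMinOn hn f.continuous.continuousOn
  refine ⟨x, hx, y, hy, ?_, fun z hz => ⟨hmin hz, hmax hz⟩⟩
  have h1 : IsGreatest (f '' K) (f x) := ⟨⟨x, hx, rfl⟩, by
    rintro _ ⟨z, hz, rfl⟩
    exact hmax hz⟩
  have h2 : IsLeast (f '' K) (f y) := ⟨⟨y, hy, rfl⟩, by
    rintro _ ⟨z, hz, rfl⟩
    exact hmin hz⟩
  rw [wdt, h1.csSup_eq, h2.csInf_eq]

/-- The width is the difference of the values at two points between which all values lie. -/
theorem wdt_unique {d : ℕ} (K : Set (E d)) (f : E d →L[ℝ] ℝ) {x y : E d} (hx : x ∈ K)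
    (hy : y ∈ K) (h : ∀ z ∈ K, f y ≤ f z ∧ f z ≤ f x) : wdt K f = f x - f y := by
  have h1 : IsGreatest (f '' K) (f x) := ⟨⟨x, hx, rfl⟩, by
    rintro _ ⟨z, hz, rfl⟩
    exact (h z hz).2⟩
  have h2 : IsLeast (f '' K) (f y) := ⟨⟨y, hy, rfl⟩, by
    rintro _ ⟨z, hz, rfl⟩
    exact (h z hz).1⟩
  rw [wdt, h1.csSup_eq, h2.csInf_eq]

theorem w1 : T_W1 := by
  intro d K hK hn
  have hatt := wdt_att K hK hn
  refine ⟨hatt, ?_, ?_, ?_⟩
  · intro f a
    obtain ⟨x, hx, y, hy, hw, hz⟩ := hatt f
    rcases le_or_gt 0 a with ha | ha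
    · rw [wdt_unique K (a • f) hx hy, hw, abs_of_nonneg ha]
      · simp only [smul_apply, smul_eq_mul]
        ring
      · intro z hzK
        simp only [smul_apply, smul_eq_mul]
        exact ⟨mul_le_mul_of_nonneg_left (hz z hzK).1 ha,
          mul_le_mul_of_nonneg_left (hz z hzK).2 ha⟩
    · rw [wdt_unique K (a • f) hy hx, hw, abs_of_neg ha]
      · simp only [smul_apply, smul_eq_mul]
        ring
      · intro z hzK
        simp only [smul_apply, smul_eq_mul]
        exact ⟨mul_le_mul_of_nonpos_left (hz z hzK).2 ha.le,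
          mul_le_mul_of_nonpos_left (hz z hzK).1 ha.le⟩
  · obtain ⟨R, hR⟩ := hK.isBounded.exists_norm_le
    have hR0 : 0 ≤ R := by
      obtain ⟨x, hx⟩ := hn
      exact (norm_nonneg x).trans (hR x hx)
    have key : ∀ f g : E d →L[ℝ] ℝ, wdt K f ≤ wdt K g + 2 * R * ‖f - g‖ := by
      intro f g
      obtain ⟨x, hx, y, hy, hw, -⟩ := hatt f
      obtain ⟨x', hx', y', hy', hw', hz'⟩ := hatt g
      have h1 : |(f - g) x| ≤ ‖f - g‖ * R := by
        have := (f - g).le_opNorm x
        rw [Real.norm_eq_abs] at this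
        exact this.trans (mul_le_mul_of_nonneg_left (hR x hx) (norm_nonneg _))
      have h2 : |(f - g) y| ≤ ‖f - g‖ * R := by
        have := (f - g).le_opNorm y
        rw [Real.norm_eq_abs] at this
        exact this.trans (mul_le_mul_of_nonneg_left (hR y hy) (norm_nonneg _))
      have h3 := (hz' x hx).2
      have h4 := (hz' y hy).1
      simp only [sub_apply] at h1 h2
      have h5 := le_abs_self (f x - g x)
      have h6 := neg_abs_le (f y - g y)
      rw [hw, hw']
      nlinarith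
    have hL : LipschitzWith (Real.toNNReal (2 * R)) (fun f : E d →L[ℝ] ℝ => wdt K f) := by
      apply LipschitzWith.of_dist_le_mul
      intro f g
      rw [Real.coe_toNNReal _ (by positivity), Real.dist_eq, dist_eq_norm, abs_le]
      have h1 := key f g
      have h2 := key g f
      rw [norm_sub_rev g f] at h2
      constructor <;> linarith
    exact hL.continuous
  · rintro ⟨z, hz⟩ f hf
    obtain ⟨x, hx, y, hy, hw, hxy⟩ := hatt f
    have hu : ∃ u : E d, 0 < f u := by
      by_contra hcon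
      push Not at hcon
      apply hf
      ext u
      have h1 := hcon u
      have h2 := hcon (-u)
      rw [map_neg] at h2
      simp only [zero_apply]
      linarith
    obtain ⟨u, hu⟩ := hu
    have hmem : ∀ᶠ ε : ℝ in 𝓝 0, z + ε • u ∈ K := by
      have hc : Continuous (fun ε : ℝ => z + ε • u) := by fun_prop
      have h0 : (fun ε : ℝ => z + ε • u) 0 = z := by simp
      have hnhds : K ∈ 𝓝 ((fun ε : ℝ => z + ε • u) 0) := by
        rw [h0]
        exact mem_interior_iff_mem_nhds.mp hz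
      exact hc.continuousAt.eventually hnhds
    have hpos : ∀ᶠ ε : ℝ in 𝓝[>] (0 : ℝ), z + ε • u ∈ K := hmem.filter_mono nhdsWithin_le_nhds
    obtain ⟨ε, hεK, hε⟩ := (hpos.and self_mem_nhdsWithin).exists
    have hε0 : 0 < ε := hε
    have h1 := (hxy _ hεK).2
    have h2 := (hxy z (interior_subset hz)).1
    rw [map_add, map_smul, smul_eq_mul] at h1
    have := mul_pos hε0 hu
    rw [hw]
    linarith

end Pool.Agent.H65.TSD
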